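import Pool.Agent.Lib.MP_ab8df0_nt.T.Xi
import Pool.Agent.Lib.MP_ab8df0_nt.P.L3

set_option maxRecDepth 100000

/-! Constants and hypotheses. -/

namespace Pool.Agent.Lib.MP_ab8df0_nt.T.B30a

open Pool.Agent.Lib.MP_ab8df0_nt.B Pool.Agent.Lib.MP_ab8df0_nt.P

def dl0 : List ℤ × ℕ := ([-227, 975, -4569, 9701, -21198, 26442, -24706, 11982, -4767, 295, -21, -51], 144)

def dl1 : List ℤ × ℕ := ([515, -975, 4569, -9701, 21198, -26442, 24706, -11982, 4767, -295, 21, 51], 144)

def vs : Cs := [([0, 1], 1), ([], 1), ([], 1), ([], 1), ([], 1), 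
  ([-9, -35, 892, -2463, 5246, -6433, 5493, -2635, 953, -60, 1, 10], 18),
  ([210, -1081, 4988, -10929, 19132, -19766, 15144, -6710, 2242, -129, -4, 23], 48),
  ([-108, 311, -3555, 9300, -19986, 24224, -20808, 9914, -3618, 225, -5, -38], 1),
  ([250, -238, 4947, -14289, 30286, -35638, 29200, -13672, 4728, -292, -3, 49], 1),
  ([-752, 14160, -299104, 1211520, -2668256, 3278912, -2596416, 1228640, -398000, 25456, 1312, -4064], 1),
  ([-16, -48, 368, -1096, 2304, -2768, 2304, -1092, 384, -24, 0, 4], 1),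
  ([-246, -78, 4164, -14814, 29148, -33696, 25668, -11872, 3746, -234, -16, 38], 1),
  ([8, 209, 194, -2165, 6596, -8950, 7996, -3898, 1428, -91, 2, 15], 1),
  ([105889792, -412012544, -3031482368, 11349368832, -28093022208, 35975307264, -31093260288, 15000944640, -5380964352, 341487616, -3571712, -56287232], 1),
  ([3213312, 9809920, -43390976, 231055360, 104779776, -545677312, 835997696, -470532096, 220653568, -14864384, 2000896, 2433024], 1),
  ([-48, 272, 440, -2064, 6448, -8768, 8124, -3984, 1512, -96, 4, 16], 1),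
  ([-57984, -44800, 538240, -4829696, 5824256, -3381760, -1338112, 1349632, -1164416, 80128, -25472, -13824], 1)]

def M (t0 : ℤ) (k0 : ℕ) : List Hyp := [
  .disc 1 t0 k0,
  .eq 2 (.add (.num 1) (.neg (.mul (.num 2) (.mul (.var 5) (.inv (.add (.mul (.num 2) (.var 1)) (.var 5))))))),
  .sqr 3 (.add (.num 1) (.mul (.num 3) (.sq (.var 2)))),
  .cls (.add (.num 1) (.mul (.num 3) (.sq (.var 2)))) [],
  .cls (.mul (.num 2) (.mul (.var 6) (.var 3))) [],
  .sqr 4 (.add (.num 1) (.var 3)),
  .cls (.add (.num 1) (.var 3)) [],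
  .cls (.add (.num 1) (.var 4)) [7, 8, 9, 10, 11, 12, 13, 14, 15, 16],
  .out (.add (.num 1) (.var 4)) [7, 8, 9, 10, 11, 12, 13, 14, 15, 16] [false, true, true, false, false, false, false, true, true, false],
  .out (.add (.num 1) (.var 4)) [7, 8, 9, 10, 11, 12, 13, 14, 15, 16] [false, true, true, false, true, false, false, false, false, false]]

def k0 : Cut := ⟨[], [], [], [[false, false, false, true, false, false, false, false, false, false], [false, false, false, false, false, false, true, false, false, false], [false, false, false, false, false, false, true, true, false, false], [false, true, false, false, false, false, false, false, false, false], [false, false, true, false, false, false, false, false, false, false], [false, false, false, false, false, true, false, false, false, false], [false, true, true, false, false, true, false, false, false, true], [false, true, true, true, true, false, false, false, false, false], [true, false, false, false, false, false, false,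 false, false, false], [false, true, false, false, false, false, false, true, true, false]], [[false, false, false, false, false, false, false, false, true, false], [false, false, false, true, false, false, false, false, false, false], [false, false, false, false, true, false, false, false, false, false], [true, false, false, false, false, false, false, false, false, false], [true, false, false, true, true, false, false, true, false, false], [false, false, false, false, false, true, false, false, false, false], [false, true, false, false, false, false, false, false, false, false], [false, true, true, false, false, false, false, false, false, false], [false, true, true, true, false, false, false, false, false, true], [false, false, false, true, true, true, true, false, false, false]]⟩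

def A : List AH := [
  ]

theorem auto : (baseOk 4 vs && A.all (AH.ok FDL3 4 vs)) = true := by decide +kernel

end Pool.Agent.Lib.MP_ab8df0_nt.T.B30a

/-! Proof trees. -/

namespace Pool.Agent.Lib.MP_ab8df0_nt.T.B30a

open Pool.Agent.Lib.MP_ab8df0_nt.B Pool.Agent.Lib.MP_ab8df0_nt.P

def r0_0 : Tree := .set 5 [[ce (-1) 136 64 1 0x8e38e38e38e38e39]] (.set 6 [[ce (-4) 136 62 1 0x2aaaaaaaaaaaaaab]] (.set 7 [[]] (.set 8 [[]] (.set 9 [[]] (.set 10 [[]] (.set 11 [[]] (.set 12 [[]] (.set 13 [[]] (.set 14 [[]] (.set 15 [[]] (.set 16 [[]] (.piv [] [] (.piv [7, 8, 9, 10, 11, 12, 13, 14, 15, 16] [[ce 0 136 1 0 0x0], [ce (-2) 136 1 3 0x4], [ce (-4) 136 5 12 0xcc3f7b7f19ab46], [ce (-2) 136 1 3 0x4], [ce (-2) 136 5 12 0xbc7004ad142ce18], [ce (-2) 136 5 12 0xfb7e18cc2f6dcda], [ce (-8) 136 5 12 0xaa5fa3c18e1119c], [ce (-8) 136 5 12 0xf83101f28056100], [ce (-2) 136 5 12 0x101bd4f44666404], [ce (-6) 136 5 12 0xb97ab33ce652944]] (.disc 17 (.split 17 (.split 17 (.set 18 [[ce (-1) 136 5 12 0x33b0c93a138201e]]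 (.root 19 0 [] (ce 1 136 1 1 0x1) (.dead 21 27 [[]] [] [ce (-1) 136 4 12 0xfdf1131fd75b]) (.dead 21 27 [[]] [] [ce (-1) 136 4 12 0xfdf1131fd75b]))) (.set 18 [[ce (-1) 136 5 12 0x71b1a17a1b0201e]] (.dead 20 27 [[]] [] [ce (-1) 136 5 12 0xbc7c592912c0001]))) (.split 17 (.split 17 (.split 17 (.set 18 [[ce (-1) 136 7 12 0x8d99c05ed6a069d1e1828]] (.root 19 0 [] (ce 1 136 7 12 0x14967b703c3e5675e7e65) (.root 22 0 [] (ce 0 136 7 12 0x40a9488fb04f2a3cd834d) (.dead 24 28 [[]] [false, true, true, true, true, false, false, false, false, false] [ce (-10) 136 5 12 0x3fdfd1868ae4b1a]) (.dead 24 28 [[]] [false, true, true, true, false, false, false, true, true, false] [ce (-17) 136 5 12 0xaa811d017f8ba76])) (.dead 21 27 [[]] [] [ce (-1) 136 5 12 0x786498e79c85fd5]))) (.set 18 [[ce (-1) 136 7 12 0xd99c5d2cea01951e1828]] (.root 19 0 [] (ce 1 136 7 12 0x8da6b8333d32126565225) (.root 22 0 [] (ce 0 136 7 11 0x16b8e4cb56b168c79705) (.dead 24 28 [[]] [false, true, true, true, true, false, false,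 false, false, false] [ce (-10) 136 5 12 0xd72b0af466590a]) (.dead 24 28 [[]] [false, true, true, true, false, false, false, true, true, false] [ce (-17) 136 5 12 0x4fb8b42175793e0])) (.dead 21 27 [[]] [] [ce (-1) 136 5 12 0x786498e79c85fd5])))) (.set 18 [[ce (-1) 136 6 12 0x9a6e3118a021238c08]] (.root 19 0 [] (ce 1 136 6 11 0x1d6eb75e308091a35) (.dead 21 27 [[]] [] [ce (-1) 136 5 12 0xb8b259991c747d3]) (.dead 21 27 [[]] [] [ce (-1) 136 5 12 0xdafd85ce54d36cf])))) (.split 17 (.set 18 [[ce (-1) 136 6 12 0x996e1bb8281de18430]] (.root 19 0 [] (ce 1 136 6 12 0xa6ce48623bcd35a1d) (.dead 21 27 [[]] [] [ce (-1) 136 5 12 0x42dee0940bf3d9f]) (.dead 21 27 [[]] [] [ce (-1) 136 5 12 0x44459ee91955d51]))) (.split 17 (.set 18 [[ce (-1) 136 7 12 0xc5bc47fccb0153062870]] (.root 19 0 [] (ce 1 136 7 12 0x207b5f0032332e3805a71) (.root 22 0 [] (ce 0 136 7 12 0xd40d1d4372ed6619d892d) (.conc 24 28 25 [[]] [ce (-16) 136 5 12 0xb995e851d6e5994]) (.conc 24 28 26 [[]] [ce (-8) 136 5 12 0x9e5b6011236484e]))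 (.dead 21 27 [[]] [] [ce (-1) 136 5 12 0x757844e25b804dd]))) (.set 18 [[ce (-1) 136 7 12 0x8c5bc1f3c4b045b062830]] (.root 19 0 [] (ce 1 136 7 12 0x9aa584435077289e6649) (.root 22 0 [] (ce 0 136 7 12 0x152e1b8379d962c83857d) (.conc 24 28 25 [[]] [ce (-16) 136 5 12 0xb915661346c3b08]) (.conc 24 28 26 [[]] [ce (-8) 136 5 12 0x5ccbac50f513842])) (.dead 21 27 [[]] [] [ce (-1) 136 5 12 0x757844e25b804dd])))))))))))))))))))))

theorem r0 : run FDL3.ds FDL3.es [[ce 0 136 64 1 0xfdc6b92d4467ae7f]] vs.length (fullH 4 vs (M 0 0) A) r0_0 = true := by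
  decide +kernel

end Pool.Agent.Lib.MP_ab8df0_nt.T.B30a

/-! The result of the computation. -/

namespace Pool.Agent.Lib.MP_ab8df0_nt.T.B30a

open Pool.Agent.Lib.MP_ab8df0_nt.B Pool.Agent.Lib.MP_ab8df0_nt.P

theorem core {K : Type} [Field K] [NumberField K] {a : K} {pl : List (Place K)} {ph : List (K →+* ℝ)}
    {w : List (IsDedekindDomain.HeightOneSpectrum (NumberField.RingOfIntegers K))}
    (hP : Pack K FDL3 a pl ph w) {G : Prop} (t g E xi : K)
    (hdisc : Q2 0 (t - ((0 : ℤ) : K)))
    (hG : g = (1 - (2 * (cval a vs 5 * (((2 * t) + cval a vs 5))⁻¹))))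
    (hE : E ^ 2 = (1 + (3 * ((g) ^ 2))))
    (hclsE : IsSquare (1 + (3 * ((g) ^ 2))))
    (hclsR : IsSquare (2 * (cval a vs 6 * E)))
    (hxi : xi ^ 2 = (1 + E))
    (hclsxi : IsSquare (1 + E))
    (hcls : ∀ v : IsDedekindDomain.HeightOneSpectrum (NumberField.RingOfIntegers K), ((6 : ℕ) : NumberField.RingOfIntegers K) ∉ v.asIdeal →
      ∃ k : ℤ, v.valuation K (1 + xi) = WithZero.exp (2 * k))
    (hout0 : IsSquare ((1 + xi) * (ev a dl0.1 / (dl0.2 : K))) → G)
    (hout1 : IsSquare ((1 + xi) * (ev a dl1.1 / (dl1.2 : K))) → G) :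
    G := by
  refine hP.cover (fr := [t, g, E, xi]) (M := M) (cs := [[ce 0 136 64 1 0xfdc6b92d4467ae7f]]) rfl auto
    (l := [(0, 0)]) (by decide) ?_ hdisc fun tt kk hq => ?_
  · exact List.forall_mem_cons.2 ⟨⟨_, r0⟩, fun _ h => absurd h List.not_mem_nil⟩
  · refine List.forall_mem_cons.2 ⟨?_, List.forall_mem_cons.2 ⟨?_, List.forall_mem_cons.2 ⟨?_, List.forall_mem_cons.2 ⟨?_, List.forall_mem_cons.2 ⟨?_, List.forall_mem_cons.2 ⟨?_, List.forall_mem_cons.2 ⟨?_, List.forall_mem_cons.2 ⟨?_, List.forall_mem_cons.2 ⟨?_, List.forall_mem_cons.2 ⟨?_, fun _ h => absurd h List.not_mem_nil⟩⟩⟩⟩⟩⟩⟩⟩⟩⟩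
    · exact hq
    · show g = (((1 : ℤ) : K) + (-((((2 : ℤ) : K) * (cval a vs 5 * (((((2 : ℤ) : K) * t) + cval a vs 5))⁻¹)))))
      try push_cast
      linear_combination hG
    · show E ^ 2 = (((1 : ℤ) : K) + (((3 : ℤ) : K) * ((g) ^ 2)))
      try push_cast
      linear_combination hE
    · exact span_of_isSquare (x := (((1 : ℤ) : K) + (((3 : ℤ) : K) * ((g) ^ 2)))) ((by push_cast; ring : (((1 : ℤ) : K) + (((3 : ℤ) : K) * ((g) ^ 2))) = (1 + (3 * ((g) ^ 2)))) ▸ hclsE)
    · exact span_of_isSquare (x := (((2 : ℤ) : K) * (cval a vs 6 * E))) ((by push_cast; ring : (((2 : ℤ) : K) * (cval a vs 6 * E)) = (2 * (cval a vs 6 * E))) ▸ hclsR)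
    · show xi ^ 2 = (((1 : ℤ) : K) + E)
      try push_cast
      linear_combination hxi
    · exact span_of_isSquare (x := (((1 : ℤ) : K) + E)) ((by push_cast; ring : (((1 : ℤ) : K) + E) = (1 + E)) ▸ hclsxi)
    · exact fun h0 => hP.span_cut (nf := 4) (vs := vs) (x := (((1 : ℤ) : K) + xi)) (fr := [t, g, E, xi]) rfl k0 (by decide +kernel) h0 ((by push_cast; ring : (((1 : ℤ) : K) + xi) = (1 + xi)) ▸ hcls) (fun _ h => absurd h List.not_mem_nil) (fun _ h => absurd h List.not_mem_nil)
    · exact fun h0 => hout0 ((by push_cast; ring : (((1 : ℤ) : K) + xi) = (1 + xi)) ▸ hP.out (nf := 4) (vs := vs) (x := (((1 : ℤ) : K) + xi)) (fr := [t, g, E, xi]) rfl dl0 ([88043, -515051, 1338155, -1787147, 1307930, 1238626, -1553078, 1166738, -372677, 32969, 2683, -4183], 2507653251072) (by decide +kernel) h0)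
    · exact fun h0 => hout1 ((by push_cast; ring : (((1 : ℤ) : K) + xi) = (1 + xi)) ▸ hP.out (nf := 4) (vs := vs) (x := (((1 : ℤ) : K) + xi)) (fr := [t, g, E, xi]) rfl dl1 ([-539, 8094, -49309, 148346, -295302, 377104, -320326, 157284, -56711, 3970, -117, -574], 13436928) (by decide +kernel) h0)

end Pool.Agent.Lib.MP_ab8df0_nt.T.B30a

/-! Constants and hypotheses. -/

namespace Pool.Agent.Lib.MP_ab8df0_nt.T.B30b

open Pool.Agent.Lib.MP_ab8df0_nt.B Pool.Agent.Lib.MP_ab8df0_nt.P

def vs : Cs := [([0, 1], 1), ([], 1), ([], 1), ([], 1), ([], 1), ([], 1), ([], 1), ([], 1), ([], 1), ([], 1), ([], 1), 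
  ([-9, -35, 892, -2463, 5246, -6433, 5493, -2635, 953, -60, 1, 10], 18),
  ([210, -1081, 4988, -10929, 19132, -19766, 15144, -6710, 2242, -129, -4, 23], 48),
  ([-941, 1484, 20089, -80164, 188914, -237844, 197930, -94496, 32747, -2072, -19, 340], 216),
  ([475, 4142, 3013, -15412, 63082, -83068, 76166, -32336, 13787, -674, 101, 148], 144),
  ([941, -1484, -20089, 80164, -188914, 237844, -197930, 94496, -32747, 2072, 19, -340], 108),
  ([-475, -4142, -3013, 15412, -63082, 83068, -76166, 32336, -13787, 674, -101, -148], 18),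
  ([-108, 311, -3555, 9300, -19986, 24224, -20808, 9914, -3618, 225, -5, -38], 1),
  ([250, -238, 4947, -14289, 30286, -35638, 29200, -13672, 4728, -292, -3, 49], 1),
  ([-752, 14160, -299104, 1211520, -2668256, 3278912, -2596416, 1228640, -398000, 25456, 1312, -4064], 1),
  ([-16, -48, 368, -1096, 2304, -2768, 2304, -1092, 384, -24, 0, 4], 1),
  ([-246, -78, 4164, -14814, 29148, -33696, 25668, -11872, 3746, -234, -16, 38], 1),
  ([8, 209, 194, -2165, 6596, -8950, 7996, -3898, 1428, -91, 2, 15], 1),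
  ([105889792, -412012544, -3031482368, 11349368832, -28093022208, 35975307264, -31093260288, 15000944640, -5380964352, 341487616, -3571712, -56287232], 1),
  ([3213312, 9809920, -43390976, 231055360, 104779776, -545677312, 835997696, -470532096, 220653568, -14864384, 2000896, 2433024], 1),
  ([-48, 272, 440, -2064, 6448, -8768, 8124, -3984, 1512, -96, 4, 16], 1),
  ([-57984, -44800, 538240, -4829696, 5824256, -3381760, -1338112, 1349632, -1164416, 80128, -25472, -13824], 1),
  ([13800, -24776, 87160, -120760, 217744, -239664, 233776, -110800, 47880, -2824, 344, 520], 1),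
  ([1608, -9464, -36152, 234024, -756112, 1066512, -956496, 472912, -170424, 11112, -120, -1784], 1),
  ([946176, -960896, 3705856, -14322560, 46307328, -66814208, 60975104, -30442752, 11122688, -730496, 13312, 116864], 1),
  ([-3056, -70384, -119712, 601872, -1942560, 2683072, -2485632, 1223424, -461680, 29488, -1120, -4880], 1),
  ([12720537600, 51459719168, -96002048000, 228237377536, 15185805312, -275325779968, 478898880512, -264818786304, 130021261312, -8461942784, 1344929792, 1439170560], 1),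
  ([-90701824, 182910976, 1667694592, -17281712128, 30792155136, -31950503936, 16729440256, -6587547648, 537460736, -28639232, -66191360, 1310720], 1),
  ([1024000, -2969600, 999424, 165736448, -399409152, 484720640, -336576512, 152961024, -38002688, 2494464, 606208, -356352], 1),
  ([-227, 975, -4569, 9701, -21198, 26442, -24706, 11982, -4767, 295, -21, -51], 144),
  ([941, -1484, -20089, 80164, -188914, 237844, -197930, 94496, -32747, 2072, 19, -340], 432),
  ([16, 84, 107, 644, -969, 1072, -109, 6, 157, -8, 6, 2], 36),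
  ([107, -923, -3751, 18565, -56158, 77902, -70826, 35534, -13157, 869, -23, -139], 144),
  ([210, -1081, 4988, -10929, 19132, -19766, 15144, -6710, 2242, -129, -4, 23], 24),
  ([-53, 330, -1454, 3690, -6622, 7800, -6132, 2912, -969, 62, 2, -10], 12),
  ([-371, 975, -4569, 9701, -21198, 26442, -24706, 11982, -4767, 295, -21, -51], 144),
  ([76, -2208, -7597, 29795, -81312, 106540, -95410, 46266, -17180, 1084, -33, -181], 432),
  ([515, -975, 4569, -9701, 21198, -26442, 24706, -11982, 4767, -295, 21, 51], 144)]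

def c0 : EC := ⟨13, 14, 15, 16, [17, 18, 19, 20, 21, 22, 23, 24, 25, 26], [27, 28, 29, 20, 30, 31, 32, 33]⟩

def M (t0 : ℤ) (k0 : ℕ) : List Hyp := [
  .disc 1 t0 k0,
  .eq 2 (.add (.num 1) (.neg (.mul (.num 2) (.mul (.var 11) (.inv (.add (.mul (.num 2) (.var 1)) (.var 11))))))),
  .sqr 3 (.add (.num 1) (.mul (.num 3) (.sq (.var 2)))),
  .cls (.add (.num 1) (.mul (.num 3) (.sq (.var 2)))) [],
  .cls (.mul (.num 2) (.mul (.var 12) (.var 3))) [],
  .sqr 4 (.add (.num 1) (.var 3)),
  .cls (.add (.num 1) (.var 3)) [],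
  .cls (.mul (.add (.num 1) (.var 4)) (.var 34)) [],
  .eq 5 (.mul (.var 35) (.add (.num 1) (.var 4))),
  .on c0 false 5 6,
  .lin 7 (.mul (.add (.mul (.num 2) (.var 1)) (.var 11)) (.add (.num (-2)) (.mul (.num 1) (.var 11)))) (.mul (.num 4) (.var 11)),
  .lin 8 (.add (.var 3) (.var 38)) (.mul (.num 3) (.mul (.add (.var 2) (.var 39)) (.var 7))),
  .lin 9 (.add (.var 4) (.var 40)) (.var 8),
  .eq 10 (.mul (.var 35) (.var 9)),
  .dq 5 36 1 (-1) 1 10]

def k0 : Cut := ⟨[], [], [], [[false, false, false, true, false, false, false, false, false, false], [false, false, false, false, false, false, true, false, false, false], [false, false, false, false, false, false, true, true, false, false], [false, true, false, false, false, false, false, false, false, false], [false, false, true, false, false, false, false, false, false, false], [false, false, false, false, false, true, false, false, false, false], [false, true, true, false, false, true, false, false, false, true], [false,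 true, true, true, true, false, false, false, false, false], [true, false, false, false, false, false, false, false, false, false], [false, true, false, false, false, false, false, true, true, false]], [[false, false, false, false, false, false, false, false, true, false], [false, false, false, true, false, false, false, false, false, false], [false, false, false, false, true, false, false, false, false, false], [true, false, false, false, false, false, false, false, false, false], [true, false, false, true, true, false, false, true, false, false], [false, false, false, false, false, true, false, false, false, false], [false, true, false, false, false, false, false, false, false, false], [false, true, true, false, false, false, false, false, false, false], [false, true, true, true, false, false, false, false, false, true], [false, false, false, true, true, true, true, false, false, false]]⟩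

def k1 : Cut := ⟨[0, 1], [], [[true, false, false, false, false, false, false, false, false, false], [false, false, false, false, false, true, false, false, false, false]], [[true, false, false, true, false, false, false, false, false, false], [false, false, false, false, false, true, false, true, false, false], [true, false, false, false, false, false, true, true, false, false], [false, true, false, false, false, false, false, false, false, false], [true, false, true, false, false, false, false, false, false, false], [true, true, true, false, false, true, false, false, false, true], [true, true, true, true, true, false, false, false, false, false], [true, true, false, false, false, false, false, true, true, false]], [[true, false, false, false, false, false, false, false, false, false], [false, false, false, false, false, true, false, false, false, false], [true, false, false, false, false, false, true, false, false, false], [true, false, true, false, false, false, false,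 false, false, false], [true, false, true, false, false, true, true, false, true, false], [false, true, false, false, false, false, false, false, false, false], [true, true, false, true, true, false, false, false, false, false], [false, true, false, true, false, false, false, false, false, false], [true, true, false, true, false, true, false, false, false, true], [false, true, false, false, false, true, true, true, false, false]]⟩

def A : List AH := [
  .ec c0 7 ([-33966313, 198216448, -952921117, 2300122822, -4149771418, 4651835176, -3641476634, 1685766284, -564712781, 34751672, 997783, -5820370], 1296) ([33966313, -198216448, 952921117, -2300122822, 4149771418, -4651835176, 3641476634, -1685766284, 564712781, -34751672, -997783, 5820370], 10368) k0 k1,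
  .on c0 false 36 37]

theorem auto : (baseOk 10 vs && A.all (AH.ok FDL3 10 vs)) = true := by decide +kernel

end Pool.Agent.Lib.MP_ab8df0_nt.T.B30b

/-! Proof trees. -/

namespace Pool.Agent.Lib.MP_ab8df0_nt.T.B30b

open Pool.Agent.Lib.MP_ab8df0_nt.B Pool.Agent.Lib.MP_ab8df0_nt.P

def r0_1 : Tree := .set 81 [[]] (.half 58 79 60 [ce (-1) 136 5 12 0xae204f0100d2112] (ce 0 136 5 12 0xb082fd159f7ceaa) (.fin 58 79 83 [[ce (-1) 136 4 12 0x58446c406802]] (.newt 87 [[ce 1 136 6 12 0xb153f72e9ea628238e, ce (-2) 136 3 12 0x57e40e7df]] (.set 86 [[]] (.edead 58 84 61 [false, true, true, false, false, true, false, true] [ce (-27) 136 5 12 0xf9fe75c7e199a96])))))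

def r0_2 : Tree := .set 44 [[ce (-1) 136 8 12 0x4616f84f5e52e0a5d8185030]] (.newt 45 [[ce 1 136 7 12 0x98aa594837170ac8a6e19, ce (-2) 136 5 12 0xcb46189f1377e57]] (.newt 48 [[ce 0 136 7 12 0x748f990163d13ac878d1d, ce (-1) 136 5 12 0xc56aefe5dea1343]] (.set 51 [[]] (.newt 63 [[ce 0 136 5 12 0x12166b72af3e298, ce (-2) 136 3 12 0x4c8902936]] (.set 53 [[ce (-2) 136 8 12 0xd89000c57c74d08af8709018]] (.set 54 [[ce (-2) 136 6 12 0xf754c147be2fba768f]] (.set 55 [[ce (-1) 136 6 12 0x82d542be55a272c883]] (.set 56 [[]] (.dent 63 59 57 false [[ce (-2) 136 4 11 0x5dcacce8ca2]] [[ce 0 136 10 12 0x4020080000a0080c0080e038000101]] [[ce 0 136 9 12 0x8000000c0c06020100c06000181]] (.deep 58 60 61 65 66 43 3 [15] [] [] (.pnil 68) (.pnil 68) (.set 67 [[]] (.set 68 [[]] (.set 69 [[]] (.set 70 [[ce (-3) 136 5 12 0x417180780800994]] (.set 71 [[ce (-2) 136 4 12 0xd0660e00c860]] (.half 58 72 60 [ce 1 136 5 12 0x866895b2b06ba2e] (ce (-2) 136 5 12 0xd825ac4a1022350) (.fin 58 72 73 [[ce 1 136 4 12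 0xabc372747e72]] (.newt 77 [[ce (-1) 136 5 12 0x4760083a088288c, ce 0 136 3 11 0xd68768e4]] (.set 76 [[]] (.half 58 74 61 [ce 0 136 5 12 0x866895b2b06ba2e] (ce (-1) 136 5 12 0xaa25624b0401258) (.fin 58 74 78 [[ce 0 136 4 12 0x278574be3a1e]] (.newt 82 [[ce 0 136 5 12 0x21381035195368e, ce 0 136 3 12 0x8d01f6160]] (.set 81 [[]] (.half 58 79 60 [ce (-1) 136 5 12 0xbd1d4b2390b108e] (ce 0 136 5 12 0x5c339a7c953a532) (.fin 58 79 83 [[ce (-1) 136 4 12 0xb0ece4c8688e]] (.newt 87 [[ce 1 136 6 12 0x6216cfbc9aaa2aab8e, ce (-2) 136 3 11 0x6850e6ff]] (.set 86 [[]] (.edead 58 84 61 [false, true, true, false, false, true, false, true] [ce (-27) 136 5 12 0xfce21a9cb78a182]))))))))))))))))))))))))))))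

def r0_3 : Tree := .split 43 (.set 44 [[ce (-1) 136 6 12 0x996e1bb8281de18430]] (.newt 45 [[ce 1 136 5 12 0xf69bcffa4462f03, ce (-2) 136 3 12 0x5abb8d057]] (.dead 47 62 [[]] [] [ce (-1) 136 5 12 0x44459ee91955d51]))) (.set 44 [[ce (-1) 136 6 12 0x196e07fb2815618430]] (.newt 45 [[ce 1 136 5 11 0x48a0fe35227d8f, ce (-2) 136 3 12 0x61da68877]] (.dead 47 62 [[]] [] [ce (-1) 136 5 12 0x757844e25b804dd])))

def r0_0 : Tree := .set 11 [[ce (-1) 136 64 1 0x8e38e38e38e38e39]] (.set 12 [[ce (-4) 136 62 1 0x2aaaaaaaaaaaaaab]] (.set 13 [[ce (-3) 136 64 1 0x84bda12f684bda13]] (.set 14 [[ce (-4) 136 60 1 0xe38e38e38e38e39]] (.set 15 [[ce (-2) 136 64 1 0x84bda12f684bda13]] (.set 16 [[ce (-1) 136 64 1 0x8e38e38e38e38e39]] (.set 17 [[]] (.set 18 [[]] (.set 19 [[]] (.set 20 [[]] (.set 21 [[]] (.set 22 [[]] (.set 23 [[]] (.set 24 [[]] (.set 25 [[]] (.set 26 [[]] (.set 27 [[]] (.set 28 [[]] (.set 29 [[]] (.set 30 [[]] (.set 31 [[]] (.set 32 [[]] (.set 33 [[]] (.set 34 [[ce (-4) 136 60 1 0xe38e38e38e38e39]]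 (.set 35 [[ce (-4) 136 59 1 0x4bda12f684bda13]] (.set 36 [[ce (-2) 136 64 1 0x8e38e38e38e38e39]] (.set 37 [[ce (-4) 136 60 1 0xe38e38e38e38e39]] (.set 38 [[ce (-3) 136 64 1 0xaaaaaaaaaaaaaaab]] (.set 39 [[ce (-2) 136 64 1 0xaaaaaaaaaaaaaaab]] (.set 40 [[ce (-4) 136 60 1 0xe38e38e38e38e39]] (.piv [17, 18, 19, 20, 21, 22, 23, 24, 25, 26] [[ce 0 136 1 0 0x0], [ce (-2) 136 1 3 0x4], [ce (-4) 136 5 12 0xcc3f7b7f19ab46], [ce (-2) 136 1 3 0x4], [ce (-2) 136 5 12 0xbc7004ad142ce18], [ce (-2) 136 5 12 0xfb7e18cc2f6dcda], [ce (-8) 136 5 12 0xaa5fa3c18e1119c], [ce (-8) 136 5 12 0xf83101f28056100], [ce (-2) 136 5 12 0x101bd4f44666404], [ce (-6) 136 5 12 0xb97ab33ce652944]] (.piv [27, 28, 29, 20, 30, 31, 32, 33] [[ce 0 136 1 0 0x0], [ce (-4) 136 1 4 0x8], [ce (-6) 136 5 12 0xcc3f7b7f292b46], [ce (-2) 136 1 3 0x4], [ce (-4) 136 5 12 0x470e14233b412c2], [ce (-10) 136 5 12 0x2c3fef1b9814b0a], [ce (-10) 136 5 12 0xa31ae3221e51990], [ce (-8) 136 5 12 0xd0c8dde144869de]] (.piv [] [] (.disc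 43 (.set 44 [[ce (-1) 136 3 12 0xd84583006]] (.split 43 (.set 44 [[ce (-1) 136 4 12 0x6e8c2e03080e]] (.split 43 (.set 44 [[ce (-1) 136 5 12 0x33b0c93a138201e]] (.root 45 0 [] (ce 1 136 1 1 0x1) (.dead 47 62 [[]] [] [ce (-1) 136 4 12 0xfdf1131fd75b]) (.dead 47 62 [[]] [] [ce (-1) 136 4 12 0xfdf1131fd75b]))) (.set 44 [[ce (-1) 136 5 12 0x71b1a17a1b0201e]] (.dead 46 62 [[]] [] [ce (-1) 136 5 12 0xbc7c592912c0001])))) (.set 44 [[ce (-1) 136 4 12 0x66856a098808]] (.split 43 (.set 44 [[ce (-1) 136 5 12 0x31b05b680946208]] (.root 45 0 [] (ce 1 136 5 12 0x125714a39e74495) (.split 43 (.set 44 [[ce (-1) 136 6 12 0x1a6e05d9a029a38c28]] (.newt 45 [[ce 1 136 5 12 0xd55f70c396d6785, ce (-2) 136 3 12 0x7bb353d73]] (.root 48 0 [] (ce 0 136 6 12 0x812a50361b8af8698d) (.dead 50 62 [[]] [] [ce (-1) 136 4 12 0x71809b846208]) (.dead 50 62 [[]] [] [ce (-1) 136 4 12 0x71809b846208])))) (.set 44 [[ce (-1) 136 6 12 0x9a6e3118a021238c08]] (.newt 45 [[ce 1 136 5 12 0x42477298805650d, ce (-2) 136 3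 11 0x1192364e5]] (.dead 47 62 [[]] [] [ce (-1) 136 5 12 0xb8b259991c747d3])))) (.split 43 (.set 44 [[ce (-1) 136 6 12 0x1a6e05d9a029a38c28]] (.newt 45 [[ce 1 136 5 12 0x32e29fc08a31c9b, ce (-2) 136 3 12 0xa8def54d5]] (.dead 47 62 [[]] [] [ce (-1) 136 5 12 0x786498e79c85fd5]))) (.set 44 [[ce (-1) 136 6 12 0x9a6e3118a021238c08]] (.newt 45 [[ce 1 136 5 12 0xc5fa9deb80b1f13, ce (-2) 136 3 11 0x12fe12d63]] (.dead 47 62 [[]] [] [ce (-1) 136 5 12 0xdafd85ce54d36cf])))))) (.set 44 [[ce (-1) 136 5 12 0x35b1b7081dc6210]] (.root 45 0 [] (ce 1 136 1 10 0x285) (.split 43 (.set 44 [[ce (-1) 136 6 12 0x996e1bb8281de18430]] (.newt 45 [[ce 1 136 5 12 0x11a64089dca551d, ce (-2) 136 3 12 0xc9d6bb1f1]] (.dead 47 62 [[]] [] [ce (-1) 136 5 12 0x42dee0940bf3d9f]))) (.set 44 [[ce (-1) 136 6 12 0x196e07fb2815618430]] (.newt 45 [[ce 1 136 5 11 0x3b600a0cee0691, ce (-2) 136 3 12 0xa2b7d89d1]] (.root 48 0 [] (ce 0 136 6 12 0x6ab0fcaeb6963060bd) (.split 43 (.set 44 [[ce (-1) 136 7 12 0xc5bc47fccb0153062870]]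 (.newt 45 [[ce 1 136 6 12 0x4366e80689ae301901, ce (-2) 136 4 12 0x15391f8bef27]] (.newt 48 [[ce 0 136 6 12 0x6ab0fcaeb6963060bd, ce (-1) 136 4 12 0x8d5ef1e644a3]] (.set 51 [[]] (.yrt 52 [] (ce 0 136 5 11 0x39fef7bbf4a88c) (.split 43 (.set 44 [[ce (-1) 136 8 12 0x8696f8c7fe3260151898d0f0]] (.newt 45 [[ce 1 136 7 12 0x61d95884360b1e1904a11, ce (-2) 136 5 12 0x8d4798bd0bf3c47]] (.newt 48 [[ce 0 136 7 12 0xb56e9c497ecd66795990d, ce (-1) 136 5 12 0x476b6f87c6a5153]] (.set 51 [[]] (.newt 63 [[ce 0 136 5 12 0xc5a62d58a70ab8c, ce (-2) 136 3 12 0x5da526836]] (.add 63 59 false [[ce (-3) 136 5 12 0x4652b401d8a7952]] (.half 58 65 60 [ce 1 136 5 12 0x3fe26bb2f241d90] (ce (-2) 136 5 12 0x86d5a00342323d4) (.fin 58 65 66 [[ce 1 136 4 12 0x195838dc8140]] (.newt 70 [[ce (-1) 136 6 12 0x92cb3fe1e522e32938, ce 0 136 3 12 0x454c859a0]] (.set 69 [[]] (.half 58 67 61 [ce 0 136 5 12 0x9b66028a66e1f08] (ce (-1) 136 5 12 0x83456802527114c) (.fin 58 67 71 [[ce 0 136 4 12 0xb3de3eb0c3c4]] (.newt 75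 [[ce 0 136 6 12 0xe877b9b1bcaf72c710, ce 0 136 3 12 0x4665a39a4]] (.set 74 [[]] (.add 72 59 false [[ce (-1) 136 5 12 0x350cfa019c05982]] (.half 58 76 60 [ce 0 136 5 12 0xcb74632a6bf9e18] (ce (-1) 136 5 12 0xdc5de12b8890b88) (.fin 58 76 77 [[ce 0 136 4 12 0x5d2a2699f74c]] (.newt 81 [[ce 1 136 6 12 0x3cea23a0722af9491e, ce (-2) 136 3 12 0x90a863934]] (.set 80 [[]] (.edead 58 78 61 [false, false, false, true, false, true, true, true] [ce (-29) 136 5 12 0xba079a6f5a748d2])))))))))))))))))))) (.set 44 [[ce (-1) 136 8 12 0x696f8773ef260759898d070]] (.newt 45 [[ce 1 136 7 12 0x71785e0c34230679c6241, ce (-2) 136 5 12 0xef6790ed0ff5f5f]] (.newt 48 [[ce 0 136 7 12 0x756f9ac17ce53e981910d, ce (-1) 136 5 12 0x814b2796d263053]] (.set 51 [[]] (.newt 63 [[ce 0 136 5 12 0xc3b6e378374a804, ce (-2) 136 3 12 0x9ee102116]] (.add 63 59 false [[ce (-3) 136 5 11 0x4e6104140a49d6]] (.half 58 65 60 [ce 1 136 5 12 0xeefe61a0a6b3e48] (ce (-2) 136 5 12 0x72d8a01146b4154) (.fin 58 65 66 [[ce 1 136 4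 12 0x3b9a18f4e5ec]] (.newt 70 [[ce (-1) 136 6 12 0xe1423770a10a622f28, ce 0 136 3 12 0xd744a50a0]] (.set 69 [[]] (.half 58 67 61 [ce 0 136 5 12 0xeefe61a0a6b3e48] (ce (-1) 136 5 12 0x9541605146750dc) (.fin 58 67 71 [[ce 0 136 4 12 0x55d85a586f20]] (.newt 75 [[ce 0 136 6 12 0x6872a160fcab238b20, ce 0 136 3 12 0xd46d830a4]] (.set 74 [[]] (.add 72 59 false [[ce (-1) 136 5 12 0x103c30739c85a92]] (.half 58 76 60 [ce 0 136 5 12 0x58d0c37a77f8454] (ce (-1) 136 5 12 0x28f8ef091874908) (.fin 58 76 77 [[ce 0 136 4 12 0x134c2c37f96c]] (.newt 81 [[ce 1 136 6 12 0xac3108e19b2e4b6dbc, ce (-2) 136 3 11 0x13e0c1110]] (.set 80 [[]] (.edead 58 78 61 [false, false, false, true, false, true, false, true] [ce (-20) 136 5 12 0xe2538f584ef4298])))))))))))))))))))))))))) (.set 44 [[ce (-1) 136 7 12 0x8c5bc1f3c4b045b062830]] (.newt 45 [[ce 1 136 6 12 0x92aae4074392119329, ce (-2) 136 4 12 0x75351d0d6b63]] (.newt 48 [[ce 0 136 6 12 0xea3cf06d78b211ea8d, ce (-1) 136 4 12 0x45d07bac08e3]] (.set 51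 [[]] (.yrt 52 [] (ce 0 136 5 12 0xb6366f33a35c200) (.split 43 (.set 44 [[ce (-1) 136 8 12 0xc616f89f1e92e045581850b0]] (.newt 45 [[ce 1 136 7 12 0x888b5bc4311f42e967609, ce (-2) 136 5 12 0xed6618ef0f71f4f]] (.newt 48 [[ce 0 136 7 12 0x758f9c816dd902a9bb55d, ce (-1) 136 5 11 0x36a2796c2e3043]] (.set 51 [[]] (.newt 63 [[ce 0 136 5 12 0xd436a512277c018, ce (-2) 136 3 12 0x8fcc26016]] (.set 53 [[ce (-2) 136 8 12 0x18d000453cb4d02af8709038]] (.set 54 [[ce (-2) 136 6 12 0x86d4d104f62b39f8b7]] (.set 55 [[ce (-1) 136 6 12 0x2155467c1796914aa3]] (.set 56 [[]] (.dent 63 59 57 false [[ce (-2) 136 4 12 0x29f0c00ac8e2]] [[ce 0 136 10 12 0xc014080200c802070320182e0e00c1]] [[ce 0 136 9 12 0xc050000f0304808180701830161]] (.deep 58 60 61 65 66 43 3 [15] [] [] (.pnil 68) (.pnil 68) (.set 67 [[]] (.set 68 [[]] (.set 69 [[]] (.set 70 [[ce (-3) 136 5 12 0xe458804a00c499c]] (.set 71 [[ce (-2) 136 4 12 0xfe468a400060]] (.half 58 72 60 [ce 1 136 5 12 0x5efcb8e8f28a8e0] (ce (-2) 136 5 12 0x8eb9ac1a8040140)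 (.fin 58 72 73 [[ce 1 136 4 12 0xfb05fe3ed25c]] (.newt 77 [[ce (-1) 136 5 12 0xe64908080042894, ce 0 136 3 11 0x528d61c4]] (.set 76 [[]] (.half 58 74 61 [ce 0 136 5 12 0xfa4c71e2f09c8f4] (ce (-1) 136 5 12 0x5db0625b9c65248) (.fin 58 74 78 [[ce 0 136 4 12 0x5bc3bcb8def4]] (.newt 82 [[ce 0 136 5 12 0xe4995607995670a, ce 0 136 3 12 0x8549f2940]] r0_1))))))))))))))))))))))) r0_2))))))) (.dead 50 62 [[]] [] [ce (-1) 136 4 12 0xfdf1132ee66a]))))) r0_3)))))))))))))))))))))))))))))))))))))))

theorem r0 : run FDL3.ds FDL3.es [[ce 0 136 64 1 0xfdc6b92d4467ae7f]] vs.length (fullH 10 vs (M 0 0) A) r0_0 = true := by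
  decide +kernel

end Pool.Agent.Lib.MP_ab8df0_nt.T.B30b

/-! The result of the computation. -/

namespace Pool.Agent.Lib.MP_ab8df0_nt.T.B30b

open Pool.Agent.Lib.MP_ab8df0_nt.B Pool.Agent.Lib.MP_ab8df0_nt.P

theorem relT {K : Type} [Field K] [NumberField K] {a : K} {pl : List (Place K)} {ph : List (K →+* ℝ)}
    {w : List (IsDedekindDomain.HeightOneSpectrum (NumberField.RingOfIntegers K))}
    (hP : Pack K FDL3 a pl ph w) : (cval a vs 11 * ((cval a vs 11) ^ 2)) = 12 := by
  have h : ((cval a vs 11 * ((cval a vs 11) ^ 2)) + (-(((12 : ℤ) : K)))) = 0 :=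
    hP.rel vs (.add (.mul (.var 11) (.sq (.var 11))) (.neg (.num 12))) (by decide +kernel)
  have h0 : cval a vs 0 = a := by simp [cval, vs, ev]
  try rw [h0] at h
  try push_cast at h
  linear_combination h

theorem relR {K : Type} [Field K] [NumberField K] {a : K} {pl : List (Place K)} {ph : List (K →+* ℝ)}
    {w : List (IsDedekindDomain.HeightOneSpectrum (NumberField.RingOfIntegers K))}
    (hP : Pack K FDL3 a pl ph w) : (((cval a vs 12) ^ 2) * ((cval a vs 11 - 2) * (((cval a vs 11 - 2)) ^ 2))) = 4 := by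
  have h : ((((cval a vs 12) ^ 2) * ((cval a vs 11 + (-(((2 : ℤ) : K)))) * (((cval a vs 11 + (-(((2 : ℤ) : K))))) ^ 2))) + (-(((4 : ℤ) : K)))) = 0 :=
    hP.rel vs (.add (.mul (.sq (.var 12)) (.mul (.add (.var 11) (.neg (.num 2))) (.sq (.add (.var 11) (.neg (.num 2)))))) (.neg (.num 4))) (by decide +kernel)
  have h0 : cval a vs 0 = a := by simp [cval, vs, ev]
  try rw [h0] at h
  try push_cast at h
  linear_combination h

theorem relS {K : Type} [Field K] [NumberField K] {a : K} {pl : List (Place K)} {ph : List (K →+* ℝ)}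
    {w : List (IsDedekindDomain.HeightOneSpectrum (NumberField.RingOfIntegers K))}
    (hP : Pack K FDL3 a pl ph w) : ((cval a vs 40) ^ 2) = (1 + (2 * cval a vs 12)) := by
  have h : (((cval a vs 40) ^ 2) + (-((((1 : ℤ) : K) + (((2 : ℤ) : K) * cval a vs 12))))) = 0 :=
    hP.rel vs (.add (.sq (.var 40)) (.neg (.add (.num 1) (.mul (.num 2) (.var 12))))) (by decide +kernel)
  have h0 : cval a vs 0 = a := by simp [cval, vs, ev]
  try rw [h0] at h
  try push_cast at h
  linear_combination h

theorem relS1 {K : Type} [Field K] [NumberField K] {a : K} {pl : List (Place K)} {ph : List (K →+* ℝ)}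
    {w : List (IsDedekindDomain.HeightOneSpectrum (NumberField.RingOfIntegers K))}
    (hP : Pack K FDL3 a pl ph w) : cval a vs 34 = (1 + cval a vs 40) := by
  have h : (cval a vs 34 + (-((((1 : ℤ) : K) + cval a vs 40)))) = 0 :=
    hP.rel vs (.add (.var 34) (.neg (.add (.num 1) (.var 40)))) (by decide +kernel)
  have h0 : cval a vs 0 = a := by simp [cval, vs, ev]
  try rw [h0] at h
  try push_cast at h
  linear_combination h

theorem relD {K : Type} [Field K] [NumberField K] {a : K} {pl : List (Place K)} {ph : List (K →+* ℝ)}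
    {w : List (IsDedekindDomain.HeightOneSpectrum (NumberField.RingOfIntegers K))}
    (hP : Pack K FDL3 a pl ph w) : cval a vs 35 = (3 * (cval a vs 34 * ((cval a vs 41) ^ 2))) := by
  have h : (cval a vs 35 + (-((((3 : ℤ) : K) * (cval a vs 34 * ((cval a vs 41) ^ 2)))))) = 0 :=
    hP.rel vs (.add (.var 35) (.neg (.mul (.num 3) (.mul (.var 34) (.sq (.var 41)))))) (by decide +kernel)
  have h0 : cval a vs 0 = a := by simp [cval, vs, ev]
  try rw [h0] at h
  try push_cast at h
  linear_combination h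

theorem rela {K : Type} [Field K] [NumberField K] {a : K} {pl : List (Place K)} {ph : List (K →+* ℝ)}
    {w : List (IsDedekindDomain.HeightOneSpectrum (NumberField.RingOfIntegers K))}
    (hP : Pack K FDL3 a pl ph w) : cval a vs 13 = ((-2) * cval a vs 35) := by
  have h : (cval a vs 13 + (-((((-2 : ℤ) : K) * cval a vs 35)))) = 0 :=
    hP.rel vs (.add (.var 13) (.neg (.mul (.num (-2)) (.var 35)))) (by decide +kernel)
  have h0 : cval a vs 0 = a := by simp [cval, vs, ev]
  try rw [h0] at h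
  try push_cast at h
  linear_combination h

theorem relb {K : Type} [Field K] [NumberField K] {a : K} {pl : List (Place K)} {ph : List (K →+* ℝ)}
    {w : List (IsDedekindDomain.HeightOneSpectrum (NumberField.RingOfIntegers K))}
    (hP : Pack K FDL3 a pl ph w) : cval a vs 14 = (-(((cval a vs 35) ^ 2))) := by
  have h : (cval a vs 14 + (-((-(((cval a vs 35) ^ 2)))))) = 0 :=
    hP.rel vs (.add (.var 14) (.neg (.neg (.sq (.var 35))))) (by decide +kernel)
  have h0 : cval a vs 0 = a := by simp [cval, vs, ev]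
  try rw [h0] at h
  try push_cast at h
  linear_combination h

theorem relE {K : Type} [Field K] [NumberField K] {a : K} {pl : List (Place K)} {ph : List (K →+* ℝ)}
    {w : List (IsDedekindDomain.HeightOneSpectrum (NumberField.RingOfIntegers K))}
    (hP : Pack K FDL3 a pl ph w) : cval a vs 38 = (2 * cval a vs 12) := by
  have h : (cval a vs 38 + (-((((2 : ℤ) : K) * cval a vs 12)))) = 0 :=
    hP.rel vs (.add (.var 38) (.neg (.mul (.num 2) (.var 12)))) (by decide +kernel)
  have h0 : cval a vs 0 = a := by simp [cval, vs, ev]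
  try rw [h0] at h
  try push_cast at h
  linear_combination h

theorem relG {K : Type} [Field K] [NumberField K] {a : K} {pl : List (Place K)} {ph : List (K →+* ℝ)}
    {w : List (IsDedekindDomain.HeightOneSpectrum (NumberField.RingOfIntegers K))}
    (hP : Pack K FDL3 a pl ph w) : ((cval a vs 11 - 2) * (cval a vs 39 - 1)) = ((-2) * cval a vs 11) := by
  have h : (((cval a vs 11 + (-(((2 : ℤ) : K)))) * (cval a vs 39 + (-(((1 : ℤ) : K))))) + (-((((-2 : ℤ) : K) * cval a vs 11)))) = 0 :=
    hP.rel vs (.add (.mul (.add (.var 11) (.neg (.num 2))) (.add (.var 39) (.neg (.num 1)))) (.neg (.mul (.num (-2)) (.var 11)))) (by decide +kernel)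
  have h0 : cval a vs 0 = a := by simp [cval, vs, ev]
  try rw [h0] at h
  try push_cast at h
  linear_combination h

theorem relEG {K : Type} [Field K] [NumberField K] {a : K} {pl : List (Place K)} {ph : List (K →+* ℝ)}
    {w : List (IsDedekindDomain.HeightOneSpectrum (NumberField.RingOfIntegers K))}
    (hP : Pack K FDL3 a pl ph w) : ((cval a vs 38) ^ 2) = (1 + (3 * ((cval a vs 39) ^ 2))) := by
  have h : (((cval a vs 38) ^ 2) + (-((((1 : ℤ) : K) + (((3 : ℤ) : K) * ((cval a vs 39) ^ 2)))))) = 0 :=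
    hP.rel vs (.add (.sq (.var 38)) (.neg (.add (.num 1) (.mul (.num 3) (.sq (.var 39)))))) (by decide +kernel)
  have h0 : cval a vs 0 = a := by simp [cval, vs, ev]
  try rw [h0] at h
  try push_cast at h
  linear_combination h

theorem relM {K : Type} [Field K] [NumberField K] {a : K} {pl : List (Place K)} {ph : List (K →+* ℝ)}
    {w : List (IsDedekindDomain.HeightOneSpectrum (NumberField.RingOfIntegers K))}
    (hP : Pack K FDL3 a pl ph w) : cval a vs 42 = (1 - cval a vs 40) := by
  have h : (cval a vs 42 + (-((((1 : ℤ) : K) + (-(cval a vs 40)))))) = 0 :=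
    hP.rel vs (.add (.var 42) (.neg (.add (.num 1) (.neg (.var 40))))) (by decide +kernel)
  have h0 : cval a vs 0 = a := by simp [cval, vs, ev]
  try rw [h0] at h
  try push_cast at h
  linear_combination h

theorem relx {K : Type} [Field K] [NumberField K] {a : K} {pl : List (Place K)} {ph : List (K →+* ℝ)}
    {w : List (IsDedekindDomain.HeightOneSpectrum (NumberField.RingOfIntegers K))}
    (hP : Pack K FDL3 a pl ph w) : cval a vs 36 = (cval a vs 35 * cval a vs 34) := by
  have h : (cval a vs 36 + (-((cval a vs 35 * cval a vs 34)))) = 0 :=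
    hP.rel vs (.add (.var 36) (.neg (.mul (.var 35) (.var 34)))) (by decide +kernel)
  have h0 : cval a vs 0 = a := by simp [cval, vs, ev]
  try rw [h0] at h
  try push_cast at h
  linear_combination h

theorem core {K : Type} [Field K] [NumberField K] {a : K} {pl : List (Place K)} {ph : List (K →+* ℝ)}
    {w : List (IsDedekindDomain.HeightOneSpectrum (NumberField.RingOfIntegers K))}
    (hP : Pack K FDL3 a pl ph w) {G : Prop} (t g E xi x y dG dE dxi dx : K)
    (hdisc : Q2 0 (t - ((0 : ℤ) : K)))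
    (hG : g = (1 - (2 * (cval a vs 11 * (((2 * t) + cval a vs 11))⁻¹))))
    (hE : E ^ 2 = (1 + (3 * ((g) ^ 2))))
    (hclsE : IsSquare (1 + (3 * ((g) ^ 2))))
    (hclsR : IsSquare (2 * (cval a vs 12 * E)))
    (hxi : xi ^ 2 = (1 + E))
    (hclsxi : IsSquare (1 + E))
    (hcls : IsSquare ((1 + xi) * cval a vs 34))
    (hx : x = (cval a vs 35 * (1 + xi)))
    (hon : On (cval a vs 13) (cval a vs 14) x y)
    (hdG : (((2 * t) + cval a vs 11) * ((-2) + (1 * cval a vs 11))) * dG = (4 * cval a vs 11))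
    (hdE : (E + cval a vs 38) * dE = (3 * ((g + cval a vs 39) * dG)))
    (hdxi : (xi + cval a vs 40) * dxi = dE)
    (hdx : dx = (cval a vs 35 * dxi))
    (hdqn : (1 * t - (-1)) ≠ 0) (hdq : x - cval a vs 36 = (1 * t - (-1)) * dx) :
    G := by
  refine hP.cover (fr := [t, g, E, xi, x, y, dG, dE, dxi, dx]) (M := M) (cs := [[ce 0 136 64 1 0xfdc6b92d4467ae7f]]) rfl auto
    (l := [(0, 0)]) (by decide) ?_ hdisc fun tt kk hq => ?_
  · exact List.forall_mem_cons.2 ⟨⟨_, r0⟩, fun _ h => absurd h List.not_mem_nil⟩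
  · refine List.forall_mem_cons.2 ⟨?_, List.forall_mem_cons.2 ⟨?_, List.forall_mem_cons.2 ⟨?_, List.forall_mem_cons.2 ⟨?_, List.forall_mem_cons.2 ⟨?_, List.forall_mem_cons.2 ⟨?_, List.forall_mem_cons.2 ⟨?_, List.forall_mem_cons.2 ⟨?_, List.forall_mem_cons.2 ⟨?_, List.forall_mem_cons.2 ⟨?_, List.forall_mem_cons.2 ⟨?_, List.forall_mem_cons.2 ⟨?_, List.forall_mem_cons.2 ⟨?_, List.forall_mem_cons.2 ⟨?_, List.forall_mem_cons.2 ⟨?_, fun _ h => absurd h List.not_mem_nil⟩⟩⟩⟩⟩⟩⟩⟩⟩⟩⟩⟩⟩⟩⟩
    · exact hq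
    · show g = (((1 : ℤ) : K) + (-((((2 : ℤ) : K) * (cval a vs 11 * (((((2 : ℤ) : K) * t) + cval a vs 11))⁻¹)))))
      try push_cast
      linear_combination hG
    · show E ^ 2 = (((1 : ℤ) : K) + (((3 : ℤ) : K) * ((g) ^ 2)))
      try push_cast
      linear_combination hE
    · exact span_of_isSquare (x := (((1 : ℤ) : K) + (((3 : ℤ) : K) * ((g) ^ 2)))) ((by push_cast; ring : (((1 : ℤ) : K) + (((3 : ℤ) : K) * ((g) ^ 2))) = (1 + (3 * ((g) ^ 2)))) ▸ hclsE)
    · exact span_of_isSquare (x := (((2 : ℤ) : K) * (cval a vs 12 * E))) ((by push_cast; ring : (((2 : ℤ) : K) * (cval a vs 12 * E)) = (2 * (cval a vs 12 * E))) ▸ hclsR)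
    · show xi ^ 2 = (((1 : ℤ) : K) + E)
      try push_cast
      linear_combination hxi
    · exact span_of_isSquare (x := (((1 : ℤ) : K) + E)) ((by push_cast; ring : (((1 : ℤ) : K) + E) = (1 + E)) ▸ hclsxi)
    · exact span_of_isSquare (x := ((((1 : ℤ) : K) + xi) * cval a vs 34)) ((by push_cast; ring : ((((1 : ℤ) : K) + xi) * cval a vs 34) = ((1 + xi) * cval a vs 34)) ▸ hcls)
    · show x = (cval a vs 35 * (((1 : ℤ) : K) + xi))
      try push_cast
      linear_combination hx
    · exact hon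
    · show (((((2 : ℤ) : K) * t) + cval a vs 11) * (((-2 : ℤ) : K) + (((1 : ℤ) : K) * cval a vs 11))) * dG = (((4 : ℤ) : K) * cval a vs 11)
      try push_cast
      linear_combination hdG
    · show (E + cval a vs 38) * dE = (((3 : ℤ) : K) * ((g + cval a vs 39) * dG))
      try push_cast
      linear_combination hdE
    · show (xi + cval a vs 40) * dxi = dE
      try push_cast
      linear_combination hdxi
    · show dx = (cval a vs 35 * dxi)
      try push_cast
      linear_combination hdx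
    · show (((1 : ℤ) : K) * t - ((-1 : ℤ) : K)) ≠ 0 ∧ x - cval a vs 36 = (((1 : ℤ) : K) * t - ((-1 : ℤ) : K)) * dx
      try push_cast
      exact ⟨by simpa using hdqn, by linear_combination hdq⟩

end Pool.Agent.Lib.MP_ab8df0_nt.T.B30b

/-! The class of the known solution of the third equation. -/

namespace Pool.Agent.Lib.MP_ab8df0_nt.T.B30

open WithZero Pool.Agent.Lib.MP_ab8df0_nt.B Pool.Agent.Lib.MP_ab8df0_nt.P
  Pool.Agent.Lib.MP_ab8df0_nt.C B30b

variable {K : Type} [Field K] [NumberField K] {a : K} {pl : List (Place K)} {ph : List (K →+* ℝ)}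
  {w : List (IsDedekindDomain.HeightOneSpectrum (NumberField.RingOfIntegers K))}

theorem lev2 (hP : Pack K FDL3 a pl ph w) {t g E xi : K} (hq : Q2 0 (t - ((0 : ℤ) : K)))
    (hu : 2 * t + cval a vs 11 ≠ 0)
    (hG : g = 1 - 2 * (cval a vs 11 * (2 * t + cval a vs 11)⁻¹)) (hE : E ^ 2 = 1 + 3 * g ^ 2)
    (hR : IsSquare (2 * (cval a vs 12 * E))) (hxi : xi ^ 2 = 1 + E) (h0 : xi ≠ 0)
    (hc : IsSquare ((1 + xi) * cval a vs 34)) (hd : 1 * t - (-1) ≠ 0) : False := by
  obtain ⟨y, hy⟩ := on_xi (D := cval a vs 35) (r := cval a vs 41) hE hxi h0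
    (by rw [relD hP]; ring) hc
  obtain ⟨p1, p2, p3⟩ := dqx (D := cval a vs 35) (xi0 := cval a vs 40) hE (relEG hP) hxi
    (by rw [relS hP, relE hP]) hd
  refine core hP t g E xi _ y _ _ _ _ hq hG hE ⟨E, by rw [← hE]; ring⟩ hR hxi
    ⟨xi, by rw [← hxi]; ring⟩ hc rfl (by rwa [rela hP, relb hP]) ?_ p1 p2 rfl hd
    (by rw [relx hP, relS1 hP]; exact p3)
  have h1 : (2 * t + cval a vs 11) * (g - 1) = -2 * cval a vs 11 := by rw [hG]; field_simp; ring
  rw [← mul_div_assoc, div_eq_iff hd]
  linear_combination (cval a vs 11 - 2) * h1 - (2 * t + cval a vs 11) * relG hP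

theorem main (hP : Pack K FDL3 a pl ph w) : BB30 := by
  intro x y z hx hyz h hf
  have ht : cval a vs 11 ^ 3 = ((12 : ℤ) : K) := by push_cast; linear_combination relT hP
  have hc : e3 (cval a vs 11) c12 = cval a vs 11 - 2 := by simp [e3, c12]; ring
  have hr : cval a vs 12 ^ 2 * (cval a vs 11 - 2) ^ 3 = 4 := by linear_combination relR hP
  have hy : Odd y := by
    rcases Int.even_or_odd y with ⟨m, rfl⟩ | hy
    · refine (R13.not_dvd_once (x := x) (a := 1) (b := 3) Int.prime_two (by norm_num) (by norm_num)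
        (by norm_num) hyz.symm (by linarith) ?_).elim
      exact Int.prime_two.dvd_of_dvd_pow (n := 4) ⟨-(12 * m ^ 3 + z ^ 3), by linarith⟩
    · exact hy
  have hy0 : (y : K) ≠ 0 := ne_of_odd hy
  have ht0 : cval a vs 11 ≠ 0 := fun q => by rw [q] at ht; norm_num at ht
  have hr0 : cval a vs 12 ≠ 0 := fun q => by rw [q] at hr; norm_num at hr
  have hc0 : cval a vs 11 - 2 ≠ 0 := fun q => by rw [q] at hr; norm_num at hr
  obtain ⟨al, ha0, hw, he, hs⟩ := eta_exists (F := K) (rho := cval a vs 12) ht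
    (by norm_num [n3, c12]) two_ne_zero (by rw [hc, hr]; norm_num) hx h hf
  obtain ⟨xi, hxi⟩ := hs (cval a vs 40) ht0 (hP.cne vs 40
    ([-573, -1325, 3761, -16623, 14078, -4430, -10542, 7142, -4769, 315, -83, -55], 720)
    (by decide +kernel)) (by rw [relS hP]; simp [c12])
  rw [hc] at hw
  have hw0 : ((2 : ℤ) : K) * z + y * cval a vs 11 ≠ 0 :=
    neg_ne_zero.1 (hw ▸ mul_ne_zero hc0 (pow_ne_zero 4 ha0))
  obtain ⟨ka, hka⟩ : ∃ ka : K, ka = x / al ^ 3 := ⟨_, rfl⟩
  have hk0 : ka ≠ 0 := hka ▸ div_ne_zero (Int.cast_ne_zero.2 hx) (pow_ne_zero 3 ha0)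
  rw [← hka] at he hxi
  obtain ⟨g, hg⟩ : ∃ g : K, g = (((2 : ℤ) : K) * z - y * cval a vs 11) /
    (((2 : ℤ) : K) * z + y * cval a vs 11) := ⟨_, rfl⟩
  rw [← hg] at he
  have hg1 : g * (((2 : ℤ) : K) * z + y * cval a vs 11) = ((2 : ℤ) : K) * z - y * cval a vs 11 := by
    rw [hg, div_mul_cancel₀ _ hw0]
  have hE : (2 * (cval a vs 12 * ka ^ 2)) ^ 2 = 1 + 3 * g ^ 2 := by linear_combination he
  have hu1 : 2 * ((z : K) / y) + cval a vs 11 = (((2 : ℤ) : K) * z + y * cval a vs 11) / y := by
    push_cast; field_simp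
  have hu : 2 * ((z : K) / y) + cval a vs 11 ≠ 0 := hu1 ▸ div_ne_zero hw0 hy0
  have hG : g = 1 - 2 * (cval a vs 11 * (2 * ((z : K) / y) + cval a vs 11)⁻¹) := by
    rw [hu1, hg]; field_simp; push_cast; ring
  have hq : Q2 0 ((z : K) / y - ((0 : ℤ) : K)) := Q2.of_div hy (by simp)
  have hR : IsSquare (2 * (cval a vs 12 * (2 * (cval a vs 12 * ka ^ 2)))) :=
    ⟨2 * cval a vs 12 * ka, by ring⟩
  have h0 : xi ≠ 0 := fun q => by
    rw [q] at hxi
    have h1 : g ^ 2 = 0 := by
      linear_combination (-1 / 3) * hE - (1 / 3) * (2 * (cval a vs 12 * ka ^ 2) - 1) * hxi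
    rw [pow_eq_zero_iff two_ne_zero] at h1
    rw [h1, zero_mul] at hg1
    have h2 : ((2 * z ^ 3 - 3 * y ^ 3 : ℤ) : K) = 0 := by
      push_cast at hg1 ht ⊢
      linear_combination (-1 / 4) * ((2 * z) ^ 2 + 2 * z * (y * cval a vs 11) +
        (y * cval a vs 11) ^ 2) * hg1 + (y : K) ^ 3 / 4 * ht
    have h3 : 2 * z ^ 3 - 3 * y ^ 3 = 0 := by exact_mod_cast h2
    obtain ⟨m, hm⟩ : Odd (y ^ 3) := hy.pow
    omega
  by_contra hyz'
  have hd : 1 * ((z : K) / y) - (-1) ≠ 0 := fun q => hyz' (by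
    field_simp at q
    have : ((y + z : ℤ) : K) = 0 := by push_cast; linear_combination q
    exact_mod_cast this)
  refine B30a.core hP (z / y) g _ xi hq hG hE ⟨_, by rw [← hE, sq]⟩ hR hxi ⟨xi, by rw [← hxi, sq]⟩
    (fun v hv => ?_) (fun q => lev2 hP hq hu hG hE hR hxi h0 q hd) fun q => ?_
  · have h6 := val_nat_eq_one v hv
    have h2 : v.valuation K ((2 : ℤ) : K) = exp (-0) := unit_dvd h6 1 (by norm_num)
    have h3 : v.valuation K ((3 : ℤ) : K) = exp (-0) := unit_dvd h6 1 (by norm_num)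
    have h4 : v.valuation K ((4 : ℤ) : K) = exp (-0) := unit_dvd h6 2 (by norm_num)
    have h5 : v.valuation K (cval a vs 12) = 1 := hP.cunit vs 12 4
      ([60, 535, 280, -2481, 12968, -20098, 20136, -10186, 4028, -261, 16, 43], 48)
      (by decide +kernel) v hv
    refine xi_even (by exact_mod_cast h2) (by exact_mod_cast h3) h2
      (unit_pow three_ne_zero (ht ▸ unit_dvd h6 2 (by norm_num))) (unit_pow three_ne_zero ?_)
      (by simpa using h5) hyz ha0 hk0 hw hg1 rfl hE hxi
    have h7 := congrArg (v.valuation K) hr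
    rw [map_mul, map_pow, h5, one_pow, one_mul] at h7
    exact h7.trans (by exact_mod_cast h4)
  · have q1 : IsSquare ((1 + xi) * cval a vs 42) := q
    rw [relM hP] at q1
    have q2 := xi_flip (relS hP) hxi hr0 hk0 q1
    rw [← relS1 hP] at q2
    exact lev2 hP hq hu hG hE hR (by rw [neg_sq, hxi]) (neg_ne_zero.2 h0) q2 hd

theorem bb : BB30 := by
  obtain ⟨pl, ph, w, hP⟩ := L3.pack
  exact main hP

end Pool.Agent.Lib.MP_ab8df0_nt.T.B30
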